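import Pool.Agent.R650.EntZ

/-!
# MP_e13f3c_al: continuous endomorphisms of `K^ℕ` have algebraic entropy `0` or `∞`

For every finite abelian group `K`, every continuous endomorphism `φ` of the compact group `K^ℕ`
has `ent(φ) = 0` or `ent(φ) = ∞`.  So the answer to Q1 is negative for every `K`.

The definitions (in `Pool/Agent/R650/EntZDefs.lean`):

* `traj φ F n`: the trajectory `T_n(φ, F) = F + φ(F) + ⋯ + φ^{n-1}(F)`;
* `H φ F`: the limit of `log |T_n(φ, F)| / n` (it exists: theorem `tendsto_H` of
  `Pool/Agent/R650/EntZ.lean`);
* `ent φ`: the supremum of `H φ F` over the finite subgroups `F` (in the extended reals).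

The proof: if `ent(φ)` is finite, choose a finite subgroup `F` with `H(φ, F) > ent(φ) - log 2`.
Then every `v` satisfies `φ^n(v) ∈ T_n(φ, ⟨v⟩) + T_m(φ, F)` for some `n`, `m`.  By the Baire
category theorem some `p(φ)`, with `p` a monic integer polynomial, has open kernel, and so finite
image; this makes all trajectories finite.  (The argument works for all compact torsion abelian
groups, theorem `ent_zero_or_top` of `Pool/Agent/R650/EntZ.lean`.)
-/

set_option autoImplicit false

namespace Pool.Agent.Results.MP_e13f3c_al.ZeroOrInfinity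

open Filter Topology

open Pool.Agent.R650.EntZ (traj H ent)

universe u

/-- Every continuous endomorphism of `K^ℕ`, `K` a finite abelian (discrete) group, has algebraic
entropy `0` or `∞`.  (The first part records that the limits defining the entropy exist.) -/
theorem result {K : Type u} [AddCommGroup K] [Finite K] [TopologicalSpace K] [DiscreteTopology K]
    (φ : AddMonoid.End (ℕ → K)) (hφ : Continuous φ) :
    (∀ F : AddSubgroup (ℕ → K), Finite F →
      Tendsto (fun n : ℕ => Real.log (Nat.card (traj φ F n)) / n) atTop (𝓝 (H φ F))) ∧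
    (ent φ = 0 ∨ ent φ = ⊤) := by
  refine ⟨fun F _ => Pool.Agent.R650.EntZ.tendsto_H φ F, ?_⟩
  have : CompactSpace K := Finite.compactSpace
  refine Pool.Agent.R650.EntZ.ent_zero_or_top (fun x => ?_) φ hφ
  rw [isOfFinAddOrder_iff_nsmul_eq_zero]
  refine ⟨Nat.card K, Nat.card_pos, ?_⟩
  funext i
  rw [Pi.smul_apply, Pi.zero_apply]
  exact card_nsmul_eq_zero'

end Pool.Agent.Results.MP_e13f3c_al.ZeroOrInfinity
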